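import Pool.Agent.V11257.Cq4

/-!
# Countable products of compact Hausdorff quasi-metrizable spaces in ZF

In ZF every compact Hausdorff quasi-metrizable space is metrizable, so `CPM_le(C, M)` implies that
every countable product of compact Hausdorff quasi-metrizable spaces is metrizable.
-/

namespace Pool.Agent.Results.MP_5db68c_lc.ProductsOfQuasiMetrizable

open FirstOrder FirstOrder.Language
open Pool.Agent.Helper672.Plain (LSet Mem El)
open Pool.Agent.H635Amen (ZF)
open Pool.Agent.V11257Q

universe u

/-- In every model of ZF in which `CPM_le(C, M)` holds, every countable product of compact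
Hausdorff quasi-metrizable spaces is metrizable, and so quasi-metrizable. -/
theorem result (M : Type u) [LSet.Structure M] (hM : ZF M) (h : CPMle M) : ProductsOfQuasi M :=
  productsOfQuasi hM.toZermelo h

end Pool.Agent.Results.MP_5db68c_lc.ProductsOfQuasiMetrizable
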